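import Mathlib

/-!
Global flow of a bounded Lipschitz vector field on a Banach space.
-/

open Set Metric Filter Topology
open scoped NNReal

namespace Pool.Agent.MP_4423d6_an

variable {E : Type*} [NormedAddCommGroup E] [NormedSpace ℝ E]

theorem exists_sol_Ioo [CompleteSpace E] {v : E → E} {K L : ℝ≥0} (hv : LipschitzWith K v)
    (hb : ∀ x, ‖v x‖ ≤ L) (x : E) {T : ℝ} (hT : 0 < T) :
    ∃ γ : ℝ → E, γ 0 = x ∧ ∀ t ∈ Ioo (-T) T, HasDerivAt γ (v (γ t)) t := by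
  have h0 : (0 : ℝ) ∈ Icc (-T) T := ⟨by linarith, hT.le⟩
  have key := IsPicardLindelof.of_time_independent (f := v) (tmin := -T) (tmax := T)
    (t₀ := ⟨0, h0⟩) (x₀ := x) (a := L * T.toNNReal) (r := 0) (L := L) (K := K)
    (fun x _ => hb x) hv.lipschitzOnWith (by simp [Real.coe_toNNReal _ hT.le])
  obtain ⟨γ, h1, h2⟩ := key.exists_eq_forall_mem_Icc_hasDerivWithinAt₀
  exact ⟨γ, h1, fun t ht => (h2 t (Ioo_subset_Icc_self ht)).hasDerivAt (Icc_mem_nhds ht.1 ht.2)⟩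

theorem exists_sol [CompleteSpace E] {v : E → E} {K L : ℝ≥0} (hv : LipschitzWith K v)
    (hb : ∀ x, ‖v x‖ ≤ L) (x : E) :
    ∃ γ : ℝ → E, γ 0 = x ∧ ∀ t, HasDerivAt γ (v (γ t)) t := by
  have hex : ∀ n : ℕ, ∃ γ : ℝ → E, γ 0 = x ∧
      ∀ t ∈ Ioo (-((n : ℝ) + 1)) ((n : ℝ) + 1), HasDerivAt γ (v (γ t)) t := fun n =>
    exists_sol_Ioo hv hb x (by positivity)
  choose γ h0 hγ using hex
  have hagree : ∀ (n : ℕ) (t : ℝ), |t| < (n : ℝ) + 1 → γ ⌊|t|⌋₊ t = γ n t := by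
    intro n t ht
    have hle : ⌊|t|⌋₊ ≤ n := by
      have h1 : ⌊|t|⌋₊ < n + 1 := (Nat.floor_lt (abs_nonneg t)).2 (by exact_mod_cast ht)
      omega
    have hlt : |t| < (⌊|t|⌋₊ : ℝ) + 1 := Nat.lt_floor_add_one _
    have hle' : ((⌊|t|⌋₊ : ℕ) : ℝ) ≤ n := by exact_mod_cast hle
    have hmem : t ∈ Ioo (-((⌊|t|⌋₊ : ℝ) + 1)) ((⌊|t|⌋₊ : ℝ) + 1) := by
      rw [abs_lt] at hlt; exact hlt
    have hz : (0 : ℝ) ∈ Ioo (-((⌊|t|⌋₊ : ℝ) + 1)) ((⌊|t|⌋₊ : ℝ) + 1) := by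
      constructor
      · have : (0 : ℝ) ≤ (⌊|t|⌋₊ : ℝ) := by positivity
        linarith
      · positivity
    refine ODE_solution_unique_of_mem_Ioo (v := fun _ => v) (s := fun _ => univ) (K := K)
      (fun t _ => hv.lipschitzOnWith) hz (fun s hs => ⟨hγ _ s hs, trivial⟩)
      (fun s hs => ⟨hγ n s ⟨?_, ?_⟩, trivial⟩) (by rw [h0, h0]) hmem
    · linarith [hs.1]
    · linarith [hs.2]
  refine ⟨fun t => γ ⌊|t|⌋₊ t, ?_, ?_⟩
  · simp [h0]
  · intro t
    have hlt : |t| < (⌊|t|⌋₊ : ℝ) + 1 := Nat.lt_floor_add_one _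
    have hmem : t ∈ Ioo (-((⌊|t|⌋₊ : ℝ) + 1)) ((⌊|t|⌋₊ : ℝ) + 1) := by
      rw [abs_lt] at hlt; exact hlt
    have h1 := hγ ⌊|t|⌋₊ t hmem
    refine h1.congr_of_eventuallyEq ?_
    filter_upwards [Ioo_mem_nhds hmem.1 hmem.2] with s hs
    exact hagree _ s (abs_lt.2 hs)

/-- Two global solutions stay close, forward in time. -/
theorem dist_sol_le_forward {v : E → E} {K : ℝ≥0} (hv : LipschitzWith K v)
    {f g : ℝ → E} (hf : ∀ t, HasDerivAt f (v (f t)) t) (hg : ∀ t, HasDerivAt g (v (g t)) t)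
    {t : ℝ} (ht : 0 ≤ t) : dist (f t) (g t) ≤ dist (f 0) (g 0) * Real.exp (K * t) := by
  have := dist_le_of_trajectories_ODE (v := fun _ => v) (K := K) (a := 0) (b := t)
    (fun _ => hv) (f := f) (g := g)
    (fun s _ => (hf s).continuousAt.continuousWithinAt)
    (fun s _ => (hf s).hasDerivWithinAt)
    (fun s _ => (hg s).continuousAt.continuousWithinAt)
    (fun s _ => (hg s).hasDerivWithinAt) le_rfl t ⟨ht, le_rfl⟩
  simpa using this

theorem dist_sol_le {v : E → E} {K : ℝ≥0} (hv : LipschitzWith K v)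
    {f g : ℝ → E} (hf : ∀ t, HasDerivAt f (v (f t)) t) (hg : ∀ t, HasDerivAt g (v (g t)) t)
    (t : ℝ) : dist (f t) (g t) ≤ dist (f 0) (g 0) * Real.exp (K * |t|) := by
  rcases le_total 0 t with ht | ht
  · rw [abs_of_nonneg ht]; exact dist_sol_le_forward hv hf hg ht
  · have hv' : LipschitzWith K (fun x => - v x) := by
      intro x y
      have := hv x y
      simpa [edist_neg_neg] using this
    have aux : ∀ h : ℝ → E, (∀ t, HasDerivAt h (v (h t)) t) →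
        ∀ t, HasDerivAt (fun s => h (-s)) (- v (h (-t))) t := by
      intro h hh t
      have := (hh (-t)).scomp t (hasDerivAt_neg t)
      simpa [Function.comp_def] using this
    have h1 := dist_sol_le_forward hv' (aux f hf) (aux g hg) (t := -t) (by linarith)
    simpa [abs_of_nonpos ht] using h1

theorem sol_unique {v : E → E} {K : ℝ≥0} (hv : LipschitzWith K v)
    {f g : ℝ → E} (hf : ∀ t, HasDerivAt f (v (f t)) t) (hg : ∀ t, HasDerivAt g (v (g t)) t)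
    (h : f 0 = g 0) (t : ℝ) : f t = g t := by
  have := dist_sol_le hv hf hg t
  rw [h, dist_self, zero_mul] at this
  exact dist_le_zero.1 this

/-- The global flow. -/
theorem exists_flow [CompleteSpace E] {v : E → E} {K L : ℝ≥0} (hv : LipschitzWith K v)
    (hb : ∀ x, ‖v x‖ ≤ L) :
    ∃ φ : ℝ → E → E, (∀ x, φ 0 x = x) ∧ (∀ x t, HasDerivAt (fun s => φ s x) (v (φ t x)) t) ∧
      (∀ s t x, φ (s + t) x = φ s (φ t x)) ∧ (∀ t, Continuous (φ t)) ∧
      (∀ γ : ℝ → E, (∀ t, HasDerivAt γ (v (γ t)) t) → ∀ t, γ t = φ t (γ 0)) := by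
  choose γ h0 hγ using exists_sol (v := v) hv hb
  have huniq : ∀ δ : ℝ → E, (∀ t, HasDerivAt δ (v (δ t)) t) → ∀ t, δ t = γ (δ 0) t :=
    fun δ hδ t => sol_unique hv hδ (hγ (δ 0)) (h0 (δ 0)).symm t
  refine ⟨fun t x => γ x t, h0, fun x t => hγ x t, ?_, ?_, huniq⟩
  · intro s t x
    have h1 : ∀ r, HasDerivAt (fun r => γ x (r + t)) (v (γ x (r + t))) r := fun r =>
      (hγ x (r + t)).comp_add_const r t
    have := huniq (fun r => γ x (r + t)) h1 s
    simpa using this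
  · intro t
    rw [continuous_iff_continuousAt]
    intro x
    have h1 : ∀ y, dist (γ y t) (γ x t) ≤ dist y x * Real.exp (K * |t|) := by
      intro y
      have := dist_sol_le hv (hγ y) (hγ x) t
      rwa [h0, h0] at this
    rw [ContinuousAt, tendsto_iff_dist_tendsto_zero]
    have h2 : Tendsto (fun y => dist y x * Real.exp (K * |t|)) (𝓝 x) (𝓝 0) := by
      have h3 : Tendsto (fun y => dist y x) (𝓝 x) (𝓝 0) :=
        tendsto_iff_dist_tendsto_zero.1 tendsto_id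
      simpa using h3.mul_const (Real.exp (K * |t|))
    exact squeeze_zero (fun y => dist_nonneg) h1 h2

end Pool.Agent.MP_4423d6_an
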