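import Pool.Agent.MP_4423d6_an.Traj

/-!
Main flow, trapping regions, and basins.
-/

open Set Metric Filter Topology Real
open scoped NNReal

namespace Pool.Agent.MP_4423d6_an

theorem exists_main_flow : ∃ Φ : ℝ → ℝ → (Fin 2 → ℝ) → (Fin 2 → ℝ),
    (∀ κ, 0 ≤ κ → κ ≤ 1 → ∀ x, Traj κ (fun t => Φ κ t x)) ∧
    (∀ κ x, Φ κ 0 x = x) ∧
    (∀ κ s t x, Φ κ (s + t) x = Φ κ s (Φ κ t x)) ∧
    (∀ t, Continuous (fun p : (Fin 2 → ℝ) × ℝ => Φ p.2 t p.1)) ∧
    (∀ κ, 0 ≤ κ → κ ≤ 1 → ∀ γ, Traj κ γ → ∀ t, γ t = Φ κ t (γ 0)) := by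
  obtain ⟨φ, h0, hd, hadd, hcont, huniq⟩ := exists_flow V_lip V_bdd
  have hfst : ∀ p t, HasDerivAt (fun s => (φ s p).1) (V (φ t p)).1 t := fun p t =>
    (ContinuousLinearMap.fst ℝ (Fin 2 → ℝ) ℝ).hasFDerivAt.comp_hasDerivAt t (hd p t)
  have hsnd : ∀ p t, HasDerivAt (fun s => (φ s p).2) (V (φ t p)).2 t := fun p t =>
    (ContinuousLinearMap.snd ℝ (Fin 2 → ℝ) ℝ).hasFDerivAt.comp_hasDerivAt t (hd p t)
  have hconst : ∀ p t, (φ t p).2 = p.2 := by
    intro p t
    have := is_const_of_deriv_eq_zero (f := fun s => (φ s p).2)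
      (fun s => (hsnd p s).differentiableAt) (fun s => (hsnd p s).deriv) t 0
    simpa [h0] using this
  refine ⟨fun κ t x => (φ t (x, κ)).1, ?_, ?_, ?_, ?_, ?_⟩
  · intro κ hκ0 hκ1 x t
    have := hfst (x, κ) t
    refine this.congr_deriv ?_
    simp only [V, hconst, cl_of_mem hκ0 hκ1]
  · intro κ x; simp [h0]
  · intro κ s t x
    have e : φ t (x, κ) = ((φ t (x, κ)).1, κ) := by
      apply Prod.ext
      · rfl
      · simp [hconst]
    simp only
    rw [hadd, ← e]
  · intro t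
    exact continuous_fst.comp (hcont t)
  · intro κ hκ0 hκ1 γ hγ t
    have h1 : ∀ t, HasDerivAt (fun s => ((γ s, κ) : (Fin 2 → ℝ) × ℝ)) (V (γ t, κ)) t := by
      intro t
      have := (hγ t).prodMk (hasDerivAt_const t κ)
      refine this.congr_deriv ?_
      simp only [V, cl_of_mem hκ0 hκ1]
    have := huniq _ h1 t
    exact congrArg Prod.fst this

/-- the threshold -/
noncomputable def l0 : ℝ := log (1 + 499/500) - log (1 - 499/500)

theorem cos_gt_of_LL {θ : Fin 2 → ℝ} (h : θ ∈ strip) (hL : l0 < LL θ) : 499/500 < cos (sD θ) := by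
  by_contra hc
  push Not at hc
  have h1 := cos_lt_one_of_strip h
  have h2 := neg_one_lt_cos_of_strip h
  have a1 : log (1 + cos (sD θ)) ≤ log (1 + 499/500) :=
    log_le_log (by linarith) (by linarith)
  have a2 : log (1 - 499/500) ≤ log (1 - cos (sD θ)) :=
    log_le_log (by norm_num) (by linarith)
  unfold LL l0 at hL
  linarith

/-- the trapping region -/
def T0 : Set (Fin 2 → ℝ) := {θ | θ ∈ strip ∧ l0 + 2 < WW θ}

theorem isOpen_T0 : IsOpen T0 :=
  continuousOn_WW.isOpen_inter_preimage isOpen_strip isOpen_Ioi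

theorem T0_cos {θ : Fin 2 → ℝ} (h : θ ∈ T0) : 499/500 < cos (sD θ) := by
  apply cos_gt_of_LL h.1
  have h1 := h.2
  have h2 := (abs_le.1 (abs_gg_le (mD θ))).2
  unfold WW at h1
  linarith

/-- upper bound for `cos` outside `T0` -/
noncomputable def c1 : ℝ := (exp (l0 + 4) - 1) / (exp (l0 + 4) + 1)

theorem c1_lt_one : c1 < 1 := by
  unfold c1
  rw [div_lt_one (by positivity)]
  linarith

theorem c1_nonneg : 0 ≤ c1 := by
  unfold c1
  apply div_nonneg _ (by positivity)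
  have : 1 ≤ exp (l0 + 4) := by
    apply one_le_exp
    have : log (1 - 499/500) ≤ log (1 + 499/500) := log_le_log (by norm_num) (by norm_num)
    unfold l0; linarith
  linarith

theorem cos_le_of_notMem_T0 {θ : Fin 2 → ℝ} (h : θ ∈ strip) (hT : θ ∉ T0) : cos (sD θ) ≤ c1 := by
  have h1 := cos_lt_one_of_strip h
  have h2 := neg_one_lt_cos_of_strip h
  have hW : WW θ ≤ l0 + 2 := by
    by_contra hc
    push Not at hc
    exact hT ⟨h, hc⟩
  have h3 := (abs_le.1 (abs_gg_le (mD θ))).1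
  have hL : LL θ ≤ l0 + 4 := by unfold WW at hW; linarith
  unfold LL at hL
  rw [← log_div (by linarith) (by linarith)] at hL
  have h4 : (1 + cos (sD θ)) / (1 - cos (sD θ)) ≤ exp (l0 + 4) := by
    rw [← log_le_iff_le_exp]
    · exact hL
    · apply div_pos <;> linarith
  rw [div_le_iff₀ (by linarith)] at h4
  unfold c1
  rw [le_div_iff₀ (by positivity)]
  nlinarith

/-- Forward invariance of the trapping region. -/
theorem Traj.trap {κ : ℝ} (hκ1 : 159/200 ≤ κ) (hκ2 : κ ≤ 4/5) {θ : ℝ → Fin 2 → ℝ}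
    (h : Traj κ θ) {t₀ : ℝ} (h0 : θ t₀ ∈ T0) {t : ℝ} (ht : t₀ ≤ t) : θ t ∈ T0 := by
  have hstrip : ∀ t, θ t ∈ strip := fun t => h.mem_strip (by linarith) (by linarith) h0.1 t
  have hder : ∀ t, HasDerivAt (fun t => WW (θ t)) _ t := fun t => h.hasDerivAt_WW t (hstrip t)
  have hcont : Continuous (fun t => WW (θ t)) :=
    continuous_iff_continuousAt.2 fun t => (hder t).continuousAt
  have hsub : Icc t₀ t ⊆ {u | WW (θ t₀) ≤ WW (θ u)} := by
    apply IsClosed.Icc_subset_of_forall_exists_gt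
    · exact (isClosed_le continuous_const hcont).inter isClosed_Icc
    · show WW (θ t₀) ≤ WW (θ t₀)
      exact le_rfl
    · intro x hx y hy
      have hx1 : WW (θ t₀) ≤ WW (θ x) := hx.1
      have hgt : l0 + 2 < WW (θ x) := lt_of_lt_of_le h0.2 hx1
      have hev : ∀ᶠ u in 𝓝 x, l0 + 2 < WW (θ u) := hcont.continuousAt.eventually (lt_mem_nhds hgt)
      obtain ⟨ε, hε, hball⟩ := Metric.eventually_nhds_iff.1 hev
      set z := min y (x + ε / 2) with hz
      have hxz : x < z := lt_min hy (by linarith)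
      have hzy : z ≤ y := min_le_left _ _
      have hzε : z ≤ x + ε / 2 := min_le_right _ _
      refine ⟨z, ?_, hxz, hzy⟩
      have hmono : MonotoneOn (fun t => WW (θ t)) (Icc x z) := by
        apply monotoneOn_of_deriv_nonneg (convex_Icc x z) hcont.continuousOn
        · intro u _
          exact (hder u).differentiableAt.differentiableWithinAt
        · intro u hu
          rw [interior_Icc] at hu
          rw [(hder u).deriv]
          have hu' : l0 + 2 < WW (θ u) := hball (by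
            rw [Real.dist_eq, abs_lt]; constructor <;> linarith [hu.1, hu.2])
          have hT : θ u ∈ T0 := ⟨hstrip u, hu'⟩
          have hc := T0_cos hT
          have := key2 hκ1 hκ2 hc.le (cos_le_one _) (cos_sq_add_sin_sq (mD (θ u)))
          linarith
      exact le_trans hx1 (hmono ⟨le_rfl, hxz.le⟩ ⟨hxz.le, le_rfl⟩ hxz.le)
  exact ⟨hstrip t, lt_of_lt_of_le h0.2 (hsub ⟨ht, le_rfl⟩)⟩

/-- the involution exchanging the two boundary components of the strip -/
noncomputable def tau (θ : Fin 2 → ℝ) : Fin 2 → ℝ := ![θ 1, θ 0 + 2 * π]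

theorem continuous_tau : Continuous tau := by
  apply continuous_pi
  intro i
  fin_cases i
  · show Continuous fun a : Fin 2 → ℝ => a 1
    fun_prop
  · show Continuous fun a : Fin 2 → ℝ => a 0 + 2 * π
    fun_prop

theorem sD_tau (θ : Fin 2 → ℝ) : sD (tau θ) = π - sD θ := by
  simp [sD, tau]; ring

theorem mD_tau (θ : Fin 2 → ℝ) : mD (tau θ) = mD θ + π := by
  simp [mD, tau]; ring

theorem tau_mem_strip {θ : Fin 2 → ℝ} (h : θ ∈ strip) : tau θ ∈ strip := by
  have h1 := h.1; have h2 := h.2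
  refine ⟨?_, ?_⟩ <;> rw [sD_tau] <;> linarith

theorem tau_mem_strip_iff {θ : Fin 2 → ℝ} : tau θ ∈ strip ↔ θ ∈ strip := by
  refine ⟨fun h => ?_, tau_mem_strip⟩
  have h1 : 0 < sD (tau θ) := h.1
  have h2 : sD (tau θ) < π := h.2
  rw [sD_tau] at h1 h2
  exact ⟨by linarith, by linarith⟩

theorem RR_tau (θ : Fin 2 → ℝ) : RR (tau θ) = RR θ := by
  simp [RR, tau]; ring

theorem Traj.tau {κ : ℝ} {θ : ℝ → Fin 2 → ℝ} (h : Traj κ θ) :
    Traj κ (fun t => tau (θ t)) := by
  intro t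
  rw [hasDerivAt_pi]
  intro i
  fin_cases i
  · have := h.coord 1 t
    show HasDerivAt (fun t => θ t 1)
      (1 - κ * RR (Pool.Agent.MP_4423d6_an.tau (θ t)) * sin (θ t 1)) t
    rw [RR_tau]
    exact this
  · have := (h.coord 0 t).add_const (2 * π)
    show HasDerivAt (fun t => θ t 0 + 2 * π)
      (1 - κ * RR (Pool.Agent.MP_4423d6_an.tau (θ t)) * sin (θ t 0 + 2 * π)) t
    rw [RR_tau, sin_add_two_pi]
    exact this

/-- translation of both phases by `2πn` -/
noncomputable def rho (n : ℤ) (θ : Fin 2 → ℝ) : Fin 2 → ℝ := fun i => θ i + n * (2 * π)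

theorem sD_rho (n : ℤ) (θ : Fin 2 → ℝ) : sD (rho n θ) = sD θ := by
  simp [sD, rho]

theorem mD_rho (n : ℤ) (θ : Fin 2 → ℝ) : mD (rho n θ) = mD θ + n * (2 * π) := by
  simp [mD, rho]; ring

theorem continuous_rho (n : ℤ) : Continuous (rho n) := by
  unfold rho; fun_prop

theorem RR_rho (n : ℤ) (θ : Fin 2 → ℝ) : RR (rho n θ) = RR θ := by
  simp [RR, rho]

theorem WW_rho (n : ℤ) (θ : Fin 2 → ℝ) : WW (rho n θ) = WW θ := by
  unfold WW LL gg
  rw [sD_rho, mD_rho]
  have e : 2 * (mD θ + n * (2 * π)) = 2 * mD θ + (2 * n : ℤ) * (2 * π) := by push_cast; ring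
  rw [e, sin_add_int_mul_two_pi, sin_add_int_mul_two_pi]

theorem Traj.rho {κ : ℝ} {θ : ℝ → Fin 2 → ℝ} (h : Traj κ θ) (n : ℤ) :
    Traj κ (fun t => rho n (θ t)) := by
  intro t
  rw [hasDerivAt_pi]
  intro i
  have := (h.coord i t).add_const (n * (2 * π))
  refine this.congr_deriv ?_
  rw [RR_rho]
  simp [Pool.Agent.MP_4423d6_an.rho]

end Pool.Agent.MP_4423d6_an
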