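import Mathlib

/-!
Definitions for the sinusoidal Winfree model.
-/

namespace Pool.Agent.MP_4423d6_an

/-- The right-hand side of the (sinusoidal) Winfree model with `N` oscillators, frequency vector
`Ω` and coupling strength `κ`. -/
noncomputable def field (N : ℕ) (Ω : Fin N → ℝ) (κ : ℝ) (θ : Fin N → ℝ) : Fin N → ℝ :=
  fun i => Ω i - κ / N * ∑ j, (1 + Real.cos (θ j)) * Real.sin (θ i)

/-- `θ` is a solution of the initial value problem on `[0, ∞)` with initial phases `Θ0`: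
it is continuous on `[0, ∞)`, satisfies the differential equation for all `t > 0`, and
`θ 0 = Θ0`. -/
structure IsSol (N : ℕ) (Ω : Fin N → ℝ) (κ : ℝ) (Θ0 : Fin N → ℝ) (θ : ℝ → Fin N → ℝ) :
    Prop where
  cont : ContinuousOn θ (Set.Ici 0)
  deriv : ∀ t : ℝ, 0 < t → HasDerivAt θ (field N Ω κ (θ t)) t
  init : θ 0 = Θ0

/-- The solution from `Θ0` converges: every coordinate has a limit in `ℝ`. -/
def Converges (N : ℕ) (Ω : Fin N → ℝ) (κ : ℝ) (Θ0 : Fin N → ℝ) : Prop :=
  ∃ θ : ℝ → Fin N → ℝ, IsSol N Ω κ Θ0 θ ∧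
    ∀ i, ∃ l : ℝ, Filter.Tendsto (fun t => θ t i) Filter.atTop (nhds l)

/-- The critical coupling strength, with values in the extended reals (so that the infimum of the
empty set is `⊤`). -/
noncomputable def kappaC (N : ℕ) (Ω : Fin N → ℝ) : EReal :=
  sInf ((fun k : ℝ => (k : EReal)) ''
    {k : ℝ | 0 < k ∧ ∀ κ : ℝ, k < κ → ∃ θ : Fin N → ℝ, ∀ i, field N Ω κ θ i = 0})

/-- The pathwise critical coupling strength, with values in the extended reals. -/
noncomputable def kappaPC (N : ℕ) (Ω : Fin N → ℝ) (Θ0 : Fin N → ℝ) : EReal :=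
  sInf ((fun k : ℝ => (k : EReal)) '' {k : ℝ | 0 < k ∧ ∀ κ : ℝ, k < κ → Converges N Ω κ Θ0})

end Pool.Agent.MP_4423d6_an
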