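import Pool.Agent.MP_4423d6_an.Flow
import Pool.Agent.MP_4423d6_an.Defs

/-!
The two-oscillator system with equal frequencies, with the coupling strength as an extra variable.
-/

open Set Metric Filter Topology Real
open scoped NNReal

namespace Pool.Agent.MP_4423d6_an

/-- clamp to `[0,1]` -/
noncomputable def cl (κ : ℝ) : ℝ := max 0 (min κ 1)

theorem cl_nonneg (κ : ℝ) : 0 ≤ cl κ := le_max_left _ _
theorem cl_le_one (κ : ℝ) : cl κ ≤ 1 := max_le zero_le_one (min_le_right _ _)
theorem cl_of_mem {κ : ℝ} (h0 : 0 ≤ κ) (h1 : κ ≤ 1) : cl κ = κ := by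
  simp [cl, h0, h1]

theorem abs_cl_sub_cl_le (a b : ℝ) : |cl a - cl b| ≤ |a - b| := by
  unfold cl
  calc |max 0 (min a 1) - max 0 (min b 1)| ≤ max |(0 : ℝ) - 0| |min a 1 - min b 1| :=
        abs_max_sub_max_le_max _ _ _ _
    _ ≤ |a - b| := by
        have h := abs_min_sub_min_le_max a 1 b 1
        simp only [sub_self, abs_zero] at h ⊢
        exact max_le (abs_nonneg _) (h.trans (max_le le_rfl (abs_nonneg _)))

/-- mean-field factor -/
noncomputable def RR (θ : Fin 2 → ℝ) : ℝ := (2 + cos (θ 0) + cos (θ 1)) / 2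

theorem RR_nonneg (θ : Fin 2 → ℝ) : 0 ≤ RR θ := by
  have := neg_one_le_cos (θ 0); have := neg_one_le_cos (θ 1)
  unfold RR; linarith

theorem RR_le (θ : Fin 2 → ℝ) : RR θ ≤ 2 := by
  have := cos_le_one (θ 0); have := cos_le_one (θ 1)
  unfold RR; linarith

/-- vector field of the extended system -/
noncomputable def V (p : (Fin 2 → ℝ) × ℝ) : (Fin 2 → ℝ) × ℝ :=
  (fun i => 1 - cl p.2 * RR p.1 * sin (p.1 i), 0)

theorem V_lip : LipschitzWith 5 V := by
  apply LipschitzWith.of_dist_le_mul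
  intro p q
  rw [Prod.dist_eq]
  have hd1 : dist p.1 q.1 ≤ dist p q := by rw [Prod.dist_eq]; exact le_max_left _ _
  have hd2 : |p.2 - q.2| ≤ dist p q := by
    rw [Prod.dist_eq, ← Real.dist_eq]; exact le_max_right _ _
  have hd0 : 0 ≤ dist p q := dist_nonneg
  have hi : ∀ i, |p.1 i - q.1 i| ≤ dist p q := fun i => by
    rw [← Real.dist_eq]; exact (dist_le_pi_dist _ _ i).trans hd1
  apply max_le
  · rw [dist_pi_le_iff (by positivity)]
    intro i
    have e : (V p).1 i - (V q).1 i = -((cl p.2 - cl q.2) * (RR p.1 * sin (p.1 i))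
        + cl q.2 * sin (p.1 i) * (RR p.1 - RR q.1)
        + cl q.2 * RR q.1 * (sin (p.1 i) - sin (q.1 i))) := by
      simp only [V]; ring
    rw [Real.dist_eq, e, abs_neg]
    have hs : |sin (p.1 i)| ≤ 1 := abs_sin_le_one _
    have hR : |RR p.1 - RR q.1| ≤ dist p q := by
      have h0 := (abs_cos_sub_cos_le (p.1 0) (q.1 0)).trans (hi 0)
      have h1 := (abs_cos_sub_cos_le (p.1 1) (q.1 1)).trans (hi 1)
      have : RR p.1 - RR q.1 = ((cos (p.1 0) - cos (q.1 0)) + (cos (p.1 1) - cos (q.1 1))) / 2 := by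
        unfold RR; ring
      rw [this, abs_div, abs_two, div_le_iff₀ (by norm_num)]
      refine (abs_add_le _ _).trans ?_
      linarith
    have hsd : |sin (p.1 i) - sin (q.1 i)| ≤ dist p q := (abs_sin_sub_sin_le _ _).trans (hi i)
    have hc : |cl p.2 - cl q.2| ≤ dist p q := (abs_cl_sub_cl_le _ _).trans hd2
    have t1 : |(cl p.2 - cl q.2) * (RR p.1 * sin (p.1 i))| ≤ dist p q * 2 := by
      rw [abs_mul]
      apply mul_le_mul hc _ (abs_nonneg _) hd0
      rw [abs_mul, abs_of_nonneg (RR_nonneg _)]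
      calc RR p.1 * |sin (p.1 i)| ≤ 2 * 1 := mul_le_mul (RR_le _) hs (abs_nonneg _) (by norm_num)
        _ = 2 := by norm_num
    have t2 : |cl q.2 * sin (p.1 i) * (RR p.1 - RR q.1)| ≤ dist p q := by
      rw [abs_mul, abs_mul, abs_of_nonneg (cl_nonneg _)]
      calc cl q.2 * |sin (p.1 i)| * |RR p.1 - RR q.1| ≤ 1 * 1 * dist p q := by
            apply mul_le_mul _ hR (abs_nonneg _) (by norm_num)
            exact mul_le_mul (cl_le_one _) hs (abs_nonneg _) (by norm_num)
        _ = dist p q := by ring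
    have t3 : |cl q.2 * RR q.1 * (sin (p.1 i) - sin (q.1 i))| ≤ 2 * dist p q := by
      rw [abs_mul, abs_mul, abs_of_nonneg (cl_nonneg _), abs_of_nonneg (RR_nonneg _)]
      calc cl q.2 * RR q.1 * |sin (p.1 i) - sin (q.1 i)| ≤ 1 * 2 * dist p q := by
            apply mul_le_mul _ hsd (abs_nonneg _) (by norm_num)
            exact mul_le_mul (cl_le_one _) (RR_le _) (RR_nonneg _) (by norm_num)
        _ = 2 * dist p q := by ring
    refine (abs_add_le _ _).trans ?_
    have := abs_add_le ((cl p.2 - cl q.2) * (RR p.1 * sin (p.1 i)))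
      (cl q.2 * sin (p.1 i) * (RR p.1 - RR q.1))
    push_cast
    linarith
  · simp only [V, dist_self]
    positivity

theorem V_bdd (p : (Fin 2 → ℝ) × ℝ) : ‖V p‖ ≤ (3 : ℝ≥0) := by
  rw [Prod.norm_def]
  apply max_le
  · rw [pi_norm_le_iff_of_nonneg (by positivity)]
    intro i
    simp only [V, Real.norm_eq_abs]
    have hs : |sin (p.1 i)| ≤ 1 := abs_sin_le_one _
    have : |cl p.2 * RR p.1 * sin (p.1 i)| ≤ 2 := by
      rw [abs_mul, abs_mul, abs_of_nonneg (cl_nonneg _), abs_of_nonneg (RR_nonneg _)]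
      calc cl p.2 * RR p.1 * |sin (p.1 i)| ≤ 1 * 2 * 1 := by
            apply mul_le_mul _ hs (abs_nonneg _) (by norm_num)
            exact mul_le_mul (cl_le_one _) (RR_le _) (RR_nonneg _) (by norm_num)
        _ = 2 := by ring
    rw [abs_le] at this ⊢
    push_cast
    constructor <;> linarith [this.1, this.2]
  · simp [V]

end Pool.Agent.MP_4423d6_an
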