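import Mathlib

namespace Pool.Agent.MP_4423d6_an

theorem poly1 {x : ℝ} (h1 : -1 ≤ x) :
    0 ≤ 4/100 + 33/100 * x + 106/100 * x^2 + 72/100 * x^3 := by
  nlinarith [mul_nonneg (by linarith : (0:ℝ) ≤ 1 + x) (sq_nonneg (x + 1/5)),
    mul_nonneg (by linarith : (0:ℝ) ≤ 1 + x) (sq_nonneg (x + 1/4)), sq_nonneg (x + 1/5),
    sq_nonneg x]

theorem poly2 {x : ℝ} (h1 : -1 ≤ x) (h2 : x ≤ 7/10) :
    0 ≤ 76/100 + 17/100 * x - 126/100 * x^2 - 72/100 * x^3 := by
  nlinarith [mul_nonneg (by linarith : (0:ℝ) ≤ 1 + x) (by linarith : (0:ℝ) ≤ 7/10 - x),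
    mul_nonneg (mul_nonneg (by linarith : (0:ℝ) ≤ 1 + x) (by linarith : (0:ℝ) ≤ 7/10 - x))
      (by linarith : (0:ℝ) ≤ 1 + x)]

theorem poly3 {x : ℝ} (h1 : 7/10 ≤ x) (h2 : x ≤ 1) :
    0 ≤ 40/100 + 25/100 * x - 1/10 * x^2
      - 4/5 * (9/10 * x^2 + 11/20 * x - 9/20) * (1 + x) * (5/4 - x^2) := by
  have hx : 0 ≤ x - 7/10 := by linarith
  have hx1 : 0 ≤ 1 - x := by linarith
  nlinarith [mul_nonneg hx hx1, mul_nonneg (mul_nonneg hx hx1) hx, mul_nonneg (mul_nonneg hx hx1) hx1,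
    sq_nonneg (x - 87/100), mul_nonneg hx (sq_nonneg (x - 87/100)),
    mul_nonneg hx1 (sq_nonneg (x - 87/100)),
    mul_nonneg (mul_nonneg hx hx) (sq_nonneg (x - 87/100)),
    mul_nonneg (mul_nonneg (mul_nonneg hx hx) hx) (sq_nonneg (x - 87/100)),
    mul_nonneg (mul_nonneg hx hx1) (sq_nonneg (x - 87/100))]

theorem key1 {x y : ℝ} (h : x^2 + y^2 = 1) :
    1/20 ≤ 4/5 * (1 + x) * x
      + (9/20 - 11/20 * x - 9/10 * x^2) * (1 - 4/5 * (1 + x) * y) := by
  have hx1 : -1 ≤ x := by nlinarith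
  have hx2 : x ≤ 1 := by nlinarith
  have hy1 : -1 ≤ y := by nlinarith
  have hy2 : y ≤ 1 := by nlinarith
  rcases le_total x (7/10) with hx | hx
  · have p1 := poly1 hx1
    have p2 := poly2 hx1 hx
    nlinarith [mul_nonneg (by linarith : (0:ℝ) ≤ 1 + y) p1, mul_nonneg (by linarith : (0:ℝ) ≤ 1 - y) p2]
  · have p3 := poly3 hx hx2
    have hp : 0 ≤ (9/10 * x^2 + 11/20 * x - 9/20) * (1 + x) := by
      apply mul_nonneg _ (by linarith)
      nlinarith
    have hy : -y ≤ 5/4 - x^2 := by nlinarith [sq_nonneg (y + 1/2)]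
    nlinarith [mul_le_mul_of_nonneg_left hy hp]

/-- The key drift inequality. -/
theorem key2 {κ c x y : ℝ} (hκ1 : 159/200 ≤ κ) (hκ2 : κ ≤ 4/5) (hc1 : 499/500 ≤ c) (hc2 : c ≤ 1)
    (h : x^2 + y^2 = 1) :
    0 ≤ κ * (1 + c * x) * x
      + (9/20 - 11/20 * x - 9/10 * x^2) * (1 - κ * (1 + c * x) * (c * y)) := by
  have hx1 : -1 ≤ x := by nlinarith
  have hx2 : x ≤ 1 := by nlinarith
  have hy1 : -1 ≤ y := by nlinarith
  have hy2 : y ≤ 1 := by nlinarith
  have k1 := key1 h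
  set p := 9/20 - 11/20 * x - 9/10 * x^2 with hp
  have hp1 : |p| ≤ 1 := by
    rw [abs_le]; constructor <;> nlinarith
  have hax : |x| ≤ 1 := abs_le.2 ⟨hx1, hx2⟩
  have hay : |y| ≤ 1 := abs_le.2 ⟨hy1, hy2⟩
  -- first difference
  have d1 : |κ * (1 + c * x) - 4/5 * (1 + x)| ≤ 12/1000 := by
    have e : κ * (1 + c * x) - 4/5 * (1 + x) = (κ - 4/5) * (1 + x) - κ * (1 - c) * x := by ring
    rw [e]
    have t1 : |(κ - 4/5) * (1 + x)| ≤ 1/200 * 2 := by
      rw [abs_mul]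
      apply mul_le_mul _ _ (abs_nonneg _) (by norm_num)
      · rw [abs_le]; constructor <;> linarith
      · rw [abs_le]; constructor <;> linarith
    have t2 : |κ * (1 - c) * x| ≤ 4/5 * (1/500) * 1 := by
      rw [abs_mul, abs_mul]
      apply mul_le_mul _ hax (abs_nonneg _) (by norm_num)
      apply mul_le_mul _ _ (abs_nonneg _) (by norm_num)
      · rw [abs_le]; constructor <;> linarith
      · rw [abs_le]; constructor <;> linarith
    have := abs_sub ((κ - 4/5) * (1 + x)) (κ * (1 - c) * x)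
    linarith
  have d2 : |κ * (1 + c * x) * c - 4/5 * (1 + x)| ≤ 16/1000 := by
    have e : κ * (1 + c * x) * c - 4/5 * (1 + x)
        = (κ * (1 + c * x) - 4/5 * (1 + x)) - κ * (1 - c) * (1 + c * x) := by ring
    rw [e]
    have t2 : |κ * (1 - c) * (1 + c * x)| ≤ 4/5 * (1/500) * 2 := by
      rw [abs_mul, abs_mul]
      apply mul_le_mul _ _ (abs_nonneg _) (by norm_num)
      · apply mul_le_mul _ _ (abs_nonneg _) (by norm_num)
        · rw [abs_le]; constructor <;> linarith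
        · rw [abs_le]; constructor <;> linarith
      · rw [abs_le]; constructor <;> nlinarith
    have := abs_sub (κ * (1 + c * x) - 4/5 * (1 + x)) (κ * (1 - c) * (1 + c * x))
    linarith
  have e : κ * (1 + c * x) * x + p * (1 - κ * (1 + c * x) * (c * y))
      = (4/5 * (1 + x) * x + p * (1 - 4/5 * (1 + x) * y))
        + (κ * (1 + c * x) - 4/5 * (1 + x)) * x
        - p * (κ * (1 + c * x) * c - 4/5 * (1 + x)) * y := by ring
  rw [e]
  have s1 : |(κ * (1 + c * x) - 4/5 * (1 + x)) * x| ≤ 12/1000 * 1 := by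
    rw [abs_mul]; exact mul_le_mul d1 hax (abs_nonneg _) (by norm_num)
  have s2 : |p * (κ * (1 + c * x) * c - 4/5 * (1 + x)) * y| ≤ 1 * (16/1000) * 1 := by
    rw [abs_mul, abs_mul]
    apply mul_le_mul _ hay (abs_nonneg _) (by norm_num)
    exact mul_le_mul hp1 d2 (abs_nonneg _) (by norm_num)
  have := (abs_le.1 s1).1
  have := (abs_le.1 s2).2
  linarith

end Pool.Agent.MP_4423d6_an
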