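import Pool.Agent.MP_4423d6_an.Nonconv

/-!
Main topological argument.
-/

open Set Metric Filter Topology Real
open scoped NNReal

namespace Pool.Agent.MP_4423d6_an

/-- the set of bad initial phases: for some `κ ∈ [159/200, 4/5]` the solution does not converge -/
def badSet : Set (Fin 2 → ℝ) :=
  {θ | ∃ κ ∈ Icc (159/200 : ℝ) (4/5), ¬ Converges 2 (fun _ => 1) κ θ}

theorem interior_badSet_nonempty : (interior badSet).Nonempty := by
  by_contra hcontra
  rw [not_nonempty_iff_eq_empty] at hcontra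
  have hempty : ∀ U : Set (Fin 2 → ℝ), IsOpen U → U ⊆ badSet → U = ∅ := by
    intro U hU hsub
    have := hU.subset_interior_iff.2 hsub
    rw [hcontra] at this
    exact subset_empty_iff.1 this
  obtain ⟨Φ, hΦ, hΦ0, hΦadd, hΦcont, hΦuniq⟩ := exists_main_flow
  set I : Set ℝ := Icc (159/200 : ℝ) (4/5) with hI
  have hI0 : ∀ κ ∈ I, 0 ≤ κ := fun κ hκ => by linarith [hκ.1]
  have hI1 : ∀ κ ∈ I, κ ≤ 1 := fun κ hκ => by linarith [hκ.2]
  have hTr : ∀ κ ∈ I, ∀ x, Traj κ (fun t => Φ κ t x) := fun κ hκ =>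
    hΦ κ (hI0 κ hκ) (hI1 κ hκ)
  -- joint basins
  set BB0 : Set ((Fin 2 → ℝ) × ℝ) := {p | p.1 ∈ strip ∧ ∃ t, Φ p.2 t p.1 ∈ T0} with hBB0
  set BB1 : Set ((Fin 2 → ℝ) × ℝ) := {p | p.1 ∈ strip ∧ ∃ t, tau (Φ p.2 t p.1) ∈ T0} with hBB1
  have hoBB0 : IsOpen BB0 := by
    have e : BB0 = (Prod.fst ⁻¹' strip) ∩
        ⋃ t, (fun p : (Fin 2 → ℝ) × ℝ => Φ p.2 t p.1) ⁻¹' T0 := by
      ext p; simp [hBB0]
    rw [e]
    exact (isOpen_strip.preimage continuous_fst).inter
      (isOpen_iUnion fun t => isOpen_T0.preimage (hΦcont t))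
  have hoBB1 : IsOpen BB1 := by
    have e : BB1 = (Prod.fst ⁻¹' strip) ∩
        ⋃ t, (fun p : (Fin 2 → ℝ) × ℝ => tau (Φ p.2 t p.1)) ⁻¹' T0 := by
      ext p; simp [hBB1]
    rw [e]
    exact (isOpen_strip.preimage continuous_fst).inter
      (isOpen_iUnion fun t => isOpen_T0.preimage (continuous_tau.comp (hΦcont t)))
  set B0 : ℝ → Set (Fin 2 → ℝ) := fun κ => {θ | (θ, κ) ∈ BB0} with hB0
  set B1 : ℝ → Set (Fin 2 → ℝ) := fun κ => {θ | (θ, κ) ∈ BB1} with hB1
  have hoB0 : ∀ κ, IsOpen (B0 κ) := fun κ => hoBB0.preimage (by fun_prop)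
  have hoB1 : ∀ κ, IsOpen (B1 κ) := fun κ => hoBB1.preimage (by fun_prop)
  have hoK0 : ∀ θ, IsOpen {κ | θ ∈ B0 κ} := fun θ => hoBB0.preimage (by fun_prop)
  have hoK1 : ∀ θ, IsOpen {κ | θ ∈ B1 κ} := fun θ => hoBB1.preimage (by fun_prop)
  -- disjointness
  have hdisj : ∀ κ ∈ I, ∀ θ, θ ∈ B0 κ → θ ∈ B1 κ → False := by
    rintro κ hκ θ ⟨hθ, t, ht⟩ ⟨_, t', ht'⟩
    have a1 := (hTr κ hκ θ).trap hκ.1 hκ.2 ht (le_max_left t t')
    have a2 := ((hTr κ hκ θ).tau).trap hκ.1 hκ.2 ht' (le_max_right t t')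
    have b1 := T0_cos a1
    have b2 := T0_cos a2
    simp only [sD_tau, cos_pi_sub] at b2
    linarith
  -- outside both basins the solution does not converge
  have hbad : ∀ κ ∈ I, ∀ θ ∈ strip, θ ∉ B0 κ → θ ∉ B1 κ → θ ∈ badSet := by
    intro κ hκ θ hθ h0 h1
    refine ⟨κ, hκ, ?_⟩
    apply not_converges (by linarith [hκ.1]) (by linarith [hκ.2]) (hTr κ hκ θ) (hΦ0 κ θ)
    · intro t
      exact (hTr κ hκ θ).mem_strip (hI0 κ hκ) (hI1 κ hκ) (t₀ := 0)
        (by simpa [hΦ0] using hθ) t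
    · intro t ht
      exact h0 ⟨hθ, t, ht⟩
    · intro t ht
      exact h1 ⟨hθ, t, ht⟩
  -- mixed basins are contained in the bad set
  have hmix : ∀ κ ∈ I, ∀ κ' ∈ I, B0 κ ∩ B1 κ' = ∅ := by
    intro κ hκ κ' hκ'
    apply hempty _ ((hoB0 κ).inter (hoB1 κ'))
    rintro θ ⟨h0, h1⟩
    by_contra hnb
    have hcov : I ⊆ {k | θ ∈ B0 k} ∪ {k | θ ∈ B1 k} := by
      intro k hk
      by_contra hk'
      simp only [mem_union, mem_ofPred_eq, not_or] at hk'
      exact hnb (hbad k hk θ h0.1 hk'.1 hk'.2)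
    obtain ⟨k, hk, hk0, hk1⟩ := (isPreconnected_Icc (a := (159/200 : ℝ)) (b := 4/5)) _ _
      (hoK0 θ) (hoK1 θ) hcov ⟨κ, hκ, h0⟩ ⟨κ', hκ', h1⟩
    exact hdisj k hk θ hk0 hk1
  -- density
  have hdense : ∀ κ ∈ I, ∀ U : Set (Fin 2 → ℝ), IsOpen U → U ⊆ strip → U.Nonempty →
      (U ∩ (B0 κ ∪ B1 κ)).Nonempty := by
    intro κ hκ U hU hUs hUne
    by_contra hne
    rw [not_nonempty_iff_eq_empty] at hne
    have : U = ∅ := by
      apply hempty U hU
      intro θ hθ
      have hn : θ ∉ B0 κ ∪ B1 κ := fun h => by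
        have : θ ∈ U ∩ (B0 κ ∪ B1 κ) := ⟨hθ, h⟩
        rw [hne] at this
        exact this
      rw [mem_union, not_or] at hn
      exact hbad κ hκ θ (hUs hθ) hn.1 hn.2
    rw [this] at hUne
    exact not_nonempty_empty hUne
  have hB0s : ∀ κ, B0 κ ⊆ strip := fun κ θ h => h.1
  have hB1s : ∀ κ, B1 κ ⊆ strip := fun κ θ h => h.1
  -- closures do not depend on κ
  have hsub0 : ∀ κ ∈ I, ∀ κ' ∈ I, B0 κ ⊆ closure (B0 κ') := by
    intro κ hκ κ' hκ' θ hθ
    rw [_root_.mem_closure_iff]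
    intro U hU hθU
    obtain ⟨z, ⟨hzU, hz0⟩, hz⟩ := hdense κ' hκ' (U ∩ B0 κ) (hU.inter (hoB0 κ))
      (fun z hz => hB0s κ hz.2) ⟨θ, hθU, hθ⟩
    rcases hz with hz | hz
    · exact ⟨z, hzU, hz⟩
    · exfalso
      have : z ∈ B0 κ ∩ B1 κ' := ⟨hz0, hz⟩
      rw [hmix κ hκ κ' hκ'] at this
      exact this
  have hsub1 : ∀ κ ∈ I, ∀ κ' ∈ I, B1 κ ⊆ closure (B1 κ') := by
    intro κ hκ κ' hκ' θ hθ
    rw [_root_.mem_closure_iff]
    intro U hU hθU
    obtain ⟨z, ⟨hzU, hz0⟩, hz⟩ := hdense κ' hκ' (U ∩ B1 κ) (hU.inter (hoB1 κ))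
      (fun z hz => hB1s κ hz.2) ⟨θ, hθU, hθ⟩
    rcases hz with hz | hz
    · exfalso
      have : z ∈ B0 κ' ∩ B1 κ := ⟨hz, hz0⟩
      rw [hmix κ' hκ' κ hκ] at this
      exact this
    · exact ⟨z, hzU, hz⟩
  have hcl0 : ∀ κ ∈ I, ∀ κ' ∈ I, closure (B0 κ) ⊆ closure (B0 κ') := fun κ hκ κ' hκ' =>
    closure_minimal (hsub0 κ hκ κ' hκ') isClosed_closure
  have hcl1 : ∀ κ ∈ I, ∀ κ' ∈ I, closure (B1 κ) ⊆ closure (B1 κ') := fun κ hκ κ' hκ' =>
    closure_minimal (hsub1 κ hκ κ' hκ') isClosed_closure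
  -- reference values
  have hmem1 : (159/200 : ℝ) ∈ I := by simp only [hI]; constructor <;> norm_num
  have hmem2 : (4/5 : ℝ) ∈ I := by simp only [hI]; constructor <;> norm_num
  set k₀ : ℝ := 4/5 with hk₀
  set E : Set (Fin 2 → ℝ) := strip ∩ (closure (B0 k₀) ∩ closure (B1 k₀)) with hE
  -- T0 is contained in all B0 κ, and tau⁻¹ T0 in all B1 κ
  have hT0B0 : ∀ κ, T0 ⊆ B0 κ := fun κ θ hθ => ⟨hθ.1, 0, by simpa [hΦ0] using hθ⟩
  have hT1B1 : ∀ κ, tau ⁻¹' T0 ⊆ B1 κ := fun κ θ hθ =>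
    ⟨tau_mem_strip_iff.1 hθ.1, 0, by simpa [hΦ0] using hθ⟩
  have hT0cl : ∀ θ ∈ T0, θ ∉ closure (B1 k₀) := by
    intro θ hθ hcl
    rw [_root_.mem_closure_iff] at hcl
    obtain ⟨z, hz0, hz1⟩ := hcl T0 isOpen_T0 hθ
    exact hdisj k₀ hmem2 z (hT0B0 k₀ hz0) hz1
  have hT1cl : ∀ θ, tau θ ∈ T0 → θ ∉ closure (B0 k₀) := by
    intro θ hθ hcl
    rw [_root_.mem_closure_iff] at hcl
    obtain ⟨z, hz0, hz1⟩ := hcl (tau ⁻¹' T0) (isOpen_T0.preimage continuous_tau) hθ
    exact hdisj k₀ hmem2 z hz1 (hT1B1 k₀ hz0)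
  have hEcos : ∀ θ ∈ E, |cos (sD θ)| ≤ c1 := by
    rintro θ ⟨hs, h0, h1⟩
    rw [abs_le]
    constructor
    · have := cos_le_of_notMem_T0 (tau_mem_strip hs) (fun h => hT1cl θ h h0)
      rw [sD_tau, cos_pi_sub] at this
      linarith
    · exact cos_le_of_notMem_T0 hs (fun h => hT0cl θ h h1)
  -- nonemptiness of E
  have hEne : E.Nonempty := by
    have hT0ne : T0.Nonempty := by
      -- points with small half difference
      have hlim : Tendsto (fun s : ℝ => log (1 + cos s) - log (1 - cos s)) (𝓝[>] 0) atTop := by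
        have hA : Tendsto (fun s : ℝ => log (1 + cos s)) (𝓝[>] 0) (𝓝 (log 2)) := by
          have : ContinuousAt (fun s : ℝ => log (1 + cos s)) 0 := by
            apply ContinuousAt.log
            · fun_prop
            · simp
          have h2 := this.tendsto
          simp only [cos_zero] at h2
          norm_num at h2
          exact h2.mono_left nhdsWithin_le_nhds
        have hB : Tendsto (fun s : ℝ => log (1 - cos s)) (𝓝[>] 0) atBot := by
          apply tendsto_log_nhdsGT_zero.comp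
          rw [tendsto_nhdsWithin_iff]
          constructor
          · have : Continuous (fun s : ℝ => 1 - cos s) := by fun_prop
            have h2 := this.tendsto 0
            simp only [cos_zero, sub_self] at h2
            exact h2.mono_left nhdsWithin_le_nhds
          · have hI : Ioo (0 : ℝ) π ∈ 𝓝[>] (0 : ℝ) := Ioo_mem_nhdsGT pi_pos
            filter_upwards [hI] with s hs
            have hsin := sin_pos_of_pos_of_lt_pi hs.1 hs.2
            show 0 < 1 - cos s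
            nlinarith [sin_sq_add_cos_sq s, cos_le_one s]
        have hC : Tendsto (fun s : ℝ => - log (1 - cos s)) (𝓝[>] 0) atTop :=
          tendsto_neg_atBot_atTop.comp hB
        have := hA.add_atTop hC
        refine this.congr fun s => by ring
      have hI : Ioo (0 : ℝ) π ∈ 𝓝[>] (0 : ℝ) := Ioo_mem_nhdsGT pi_pos
      obtain ⟨s, hs1, hs2⟩ := ((hlim.eventually_gt_atTop (l0 + 2 + 2)).and hI).exists
      refine ⟨![-s, s], ?_⟩
      have e1 : sD ![-s, s] = s := by simp [sD]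
      refine ⟨⟨by rw [e1]; exact hs2.1, by rw [e1]; exact hs2.2⟩, ?_⟩
      have := (abs_le.1 (abs_gg_le (mD ![-s, s]))).1
      unfold WW LL
      rw [e1]
      linarith
    have hT1ne : (tau ⁻¹' T0).Nonempty := by
      obtain ⟨θ, hθ⟩ := hT0ne
      refine ⟨![θ 1 - 2 * π, θ 0], ?_⟩
      show tau ![θ 1 - 2 * π, θ 0] ∈ T0
      have : tau ![θ 1 - 2 * π, θ 0] = θ := by
        funext i
        fin_cases i <;> simp [tau]
      rw [this]; exact hθ
    have hpre : IsPreconnected strip := convex_strip.isPreconnected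
    rw [isPreconnected_closed_iff] at hpre
    have := hpre (closure (B0 k₀)) (closure (B1 k₀)) isClosed_closure isClosed_closure ?_ ?_ ?_
    · exact this
    · intro θ hθ
      by_contra hn
      rw [mem_union, not_or] at hn
      obtain ⟨z, ⟨hz1, hz2⟩, hz⟩ := hdense k₀ hmem2
        (strip ∩ ((closure (B0 k₀))ᶜ ∩ (closure (B1 k₀))ᶜ))
        (isOpen_strip.inter (isClosed_closure.isOpen_compl.inter isClosed_closure.isOpen_compl))
        inter_subset_left ⟨θ, hθ, hn.1, hn.2⟩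
      rcases hz with hz | hz
      · exact hz2.1 (subset_closure hz)
      · exact hz2.2 (subset_closure hz)
    · obtain ⟨θ, hθ⟩ := hT0ne
      exact ⟨θ, hθ.1, subset_closure (hT0B0 k₀ hθ)⟩
    · obtain ⟨θ, hθ⟩ := hT1ne
      exact ⟨θ, tau_mem_strip_iff.1 hθ.1, subset_closure (hT1B1 k₀ hθ)⟩
  -- invariance of E under the flows
  have hinv : ∀ κ ∈ I, ∀ t, ∀ θ ∈ E, Φ κ t θ ∈ E := by
    rintro κ hκ t θ ⟨hs, h0, h1⟩
    have hct : Continuous (Φ κ t) := by
      have := (hΦcont t).comp (Continuous.prodMk_left (X := Fin 2 → ℝ) κ)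
      exact this
    have hst : ∀ z ∈ strip, ∀ t, Φ κ t z ∈ strip := fun z hz t =>
      (hTr κ hκ z).mem_strip (hI0 κ hκ) (hI1 κ hκ) (t₀ := 0) (by simpa [hΦ0] using hz) t
    refine ⟨hst θ hs t, ?_, ?_⟩
    · apply hcl0 κ hκ k₀ hmem2
      apply map_mem_closure hct (hcl0 k₀ hmem2 κ hκ h0)
      rintro z ⟨hz, u, hu⟩
      refine ⟨hst z hz t, u - t, ?_⟩
      show Φ κ (u - t) (Φ κ t z) ∈ T0
      rw [← hΦadd]
      simpa using hu
    · apply hcl1 κ hκ k₀ hmem2
      apply map_mem_closure hct (hcl1 k₀ hmem2 κ hκ h1)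
      rintro z ⟨hz, u, hu⟩
      refine ⟨hst z hz t, u - t, ?_⟩
      show tau (Φ κ (u - t) (Φ κ t z)) ∈ T0
      rw [← hΦadd]
      simpa using hu
  -- invariance of E under translations
  have hrho : ∀ n : ℤ, ∀ θ ∈ E, rho n θ ∈ E := by
    rintro n θ ⟨hs, h0, h1⟩
    have hrs : ∀ z ∈ strip, rho n z ∈ strip := by
      intro z hz
      exact ⟨by rw [sD_rho]; exact hz.1, by rw [sD_rho]; exact hz.2⟩
    have hrT : ∀ z ∈ T0, rho n z ∈ T0 := by
      intro z hz
      exact ⟨hrs z hz.1, by rw [WW_rho]; exact hz.2⟩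
    have hrΦ : ∀ z t, rho n (Φ k₀ t z) = Φ k₀ t (rho n z) := by
      intro z t
      have := hΦuniq k₀ (hI0 _ hmem2) (hI1 _ hmem2) _ ((hTr k₀ hmem2 z).rho n) t
      simpa [hΦ0] using this
    have hrt : ∀ z, tau (rho n z) = rho n (tau z) := by
      intro z
      funext i
      fin_cases i
      · simp [tau, rho]
      · simp [tau, rho]; ring
    refine ⟨hrs θ hs, ?_, ?_⟩
    · apply map_mem_closure (continuous_rho n) h0
      rintro z ⟨hz, u, hu⟩
      refine ⟨hrs z hz, u, ?_⟩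
      show Φ k₀ u (rho n z) ∈ T0
      rw [← hrΦ]
      exact hrT _ hu
    · apply map_mem_closure (continuous_rho n) h1
      rintro z ⟨hz, u, hu⟩
      refine ⟨hrs z hz, u, ?_⟩
      show tau (Φ k₀ u (rho n z)) ∈ T0
      rw [← hrΦ, hrt]
      exact hrT _ hu
  -- compact piece
  set K : Set (Fin 2 → ℝ) := {θ | (0 ≤ sD θ ∧ sD θ ≤ π) ∧ |cos (sD θ)| ≤ c1 ∧
    (0 ≤ mD θ ∧ mD θ ≤ 2 * π)} with hK
  have hKclosed : IsClosed K := by
    apply IsClosed.inter
    · exact (isClosed_le continuous_const continuous_sD).inter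
        (isClosed_le continuous_sD continuous_const)
    · apply IsClosed.inter
      · exact isClosed_le (continuous_abs.comp (continuous_cos.comp continuous_sD))
          continuous_const
      · exact (isClosed_le continuous_const continuous_mD).inter
          (isClosed_le continuous_mD continuous_const)
  have hKbdd : K ⊆ closedBall 0 (3 * π) := by
    rintro θ ⟨⟨a1, a2⟩, _, a3, a4⟩
    have hpi := pi_pos
    rw [mem_closedBall, dist_zero_right, pi_norm_le_iff_of_nonneg (by positivity)]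
    have e0 : θ 0 = mD θ - sD θ := by unfold mD sD; ring
    have e1 : θ 1 = mD θ + sD θ := by unfold mD sD; ring
    intro i
    rw [Real.norm_eq_abs, abs_le]
    fin_cases i
    · show -(3 * π) ≤ θ 0 ∧ θ 0 ≤ 3 * π
      rw [e0]; constructor <;> linarith
    · show -(3 * π) ≤ θ 1 ∧ θ 1 ≤ 3 * π
      rw [e1]; constructor <;> linarith
  have hKE : K ∩ (closure (B0 k₀) ∩ closure (B1 k₀)) ⊆ E := by
    rintro θ ⟨⟨⟨a1, a2⟩, a3, _⟩, hcl⟩
    have hc1 := c1_lt_one
    refine ⟨⟨?_, ?_⟩, hcl⟩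
    · rcases eq_or_lt_of_le a1 with h | h
      · rw [← h, cos_zero] at a3; norm_num at a3; linarith
      · exact h
    · rcases eq_or_lt_of_le a2 with h | h
      · rw [h, cos_pi] at a3; norm_num at a3; linarith
      · exact h
  have hcomp : IsCompact (K ∩ (closure (B0 k₀) ∩ closure (B1 k₀))) :=
    (isCompact_closedBall (0 : Fin 2 → ℝ) (3 * π)).of_isClosed_subset
      (hKclosed.inter (isClosed_closure.inter isClosed_closure))
      (inter_subset_left.trans hKbdd)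
  -- reduction to the compact piece
  have hred : ∀ θ ∈ E, ∃ n : ℤ, rho n θ ∈ K ∩ (closure (B0 k₀) ∩ closure (B1 k₀)) := by
    intro θ hθ
    have hpi : (0 : ℝ) < 2 * π := by positivity
    refine ⟨-⌊mD θ / (2 * π)⌋, ?_⟩
    have hE' := hrho (-⌊mD θ / (2 * π)⌋) θ hθ
    refine ⟨⟨⟨hE'.1.1.le, hE'.1.2.le⟩, hEcos _ hE', ?_⟩, hE'.2⟩
    rw [mD_rho]
    have h1 := Int.floor_le (mD θ / (2 * π))
    have h2 := Int.lt_floor_add_one (mD θ / (2 * π))
    rw [le_div_iff₀ hpi] at h1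
    rw [div_lt_iff₀ hpi] at h2
    push_cast
    constructor <;> nlinarith
  have hne : (K ∩ (closure (B0 k₀) ∩ closure (B1 k₀))).Nonempty := by
    obtain ⟨θ, hθ⟩ := hEne
    obtain ⟨n, hn⟩ := hred θ hθ
    exact ⟨_, hn⟩
  set ell : (Fin 2 → ℝ) → ℝ := fun θ => cos (sD θ) - cos (mD θ) with hell
  have hellc : Continuous ell :=
    (continuous_cos.comp continuous_sD).sub (continuous_cos.comp continuous_mD)
  obtain ⟨p, hpK, hpmax⟩ := hcomp.exists_isMaxOn hne hellc.continuousOn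
  have hpE : p ∈ E := hKE hpK
  have hmaxE : ∀ θ ∈ E, ell θ ≤ ell p := by
    intro θ hθ
    obtain ⟨n, hn⟩ := hred θ hθ
    have h1 : ell (rho n θ) ≤ ell p := hpmax hn
    have h2 : ell (rho n θ) = ell θ := by
      simp only [hell, sD_rho, mD_rho, cos_add_int_mul_two_pi]
    linarith
  -- derivative at the maximum
  have hder : ∀ κ ∈ I, -(sin (sD p) * (-(κ * RR p * cos (mD p)) * sin (sD p)))
      + sin (mD p) * (1 - κ * RR p * (cos (sD p) * sin (mD p))) = 0 := by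
    intro κ hκ
    have hT := hTr κ hκ p
    have h1 := (hT.hasDerivAt_sD 0).cos
    have h2 := (hT.hasDerivAt_mD 0).cos
    have h3 := h1.sub h2
    have hmax : IsLocalMax (fun t => cos (sD (Φ κ t p)) - cos (mD (Φ κ t p))) 0 := by
      apply Filter.Eventually.of_forall
      intro t
      have := hmaxE _ (hinv κ hκ t p hpE)
      simp only [hΦ0]
      exact this
    have h4 := hmax.hasDerivAt_eq_zero h3
    simp only [hΦ0] at h4
    linarith
  have d1 := hder _ hmem1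
  have d2 := hder _ hmem2
  have hcosp := hEcos p hpE
  have hc1 := c1_lt_one
  set c := cos (sD p) with hc
  set x := cos (mD p) with hx
  set y := sin (mD p) with hy
  have hs2 : sin (sD p) ^ 2 = 1 - c ^ 2 := by
    have := sin_sq_add_cos_sq (sD p); linarith
  have hxy : x ^ 2 + y ^ 2 = 1 := cos_sq_add_sin_sq (mD p)
  have hR : RR p = 1 + c * x := RR_eq p
  have hbr : RR p * (x * sin (sD p) ^ 2 - c * y ^ 2) = 0 := by
    linear_combination 200 * d2 - 200 * d1
  have hy0 : y = 0 := by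
    linear_combination d1 - (159/200) * hbr
  rw [hy0] at hbr hxy
  have hx2 : x ^ 2 = 1 := by linarith
  have hx0 : x ≠ 0 := by
    intro h; rw [h] at hx2; norm_num at hx2
  have hc2 : c ^ 2 < 1 := by
    rw [abs_le] at hcosp
    nlinarith [hcosp.1, hcosp.2]
  have hRpos : RR p ≠ 0 := by
    intro h
    rw [hR] at h
    have h5 : (c * x) ^ 2 = 1 := by
      have : c * x = -1 := by linarith
      rw [this]; norm_num
    rw [mul_pow, hx2] at h5
    linarith
  rcases mul_eq_zero.1 hbr with h | h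
  · exact hRpos h
  · rw [hs2] at h
    have h6 : x * (1 - c ^ 2) = 0 := by linear_combination h
    rcases mul_eq_zero.1 h6 with h | h
    · exact hx0 h
    · linarith

end Pool.Agent.MP_4423d6_an
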