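import Pool.Agent.MP_4423d6_an.Basins

/-!
A trajectory which converges and stays away from both trapping regions cannot exist for `κ < 1`.
-/

open Set Metric Filter Topology Real
open scoped NNReal

namespace Pool.Agent.MP_4423d6_an

/-- If `f` and its derivative have limits at infinity, the limit of the derivative is zero. -/
theorem limit_deriv_zero {f f' : ℝ → ℝ} (hd : ∀ t, 0 < t → HasDerivAt f (f' t) t) {l l' : ℝ}
    (hf : Tendsto f atTop (𝓝 l)) (hf' : Tendsto f' atTop (𝓝 l')) : l' = 0 := by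
  have hex : ∀ n : ℕ, ∃ ξ : ℝ, (n : ℝ) + 1 ≤ ξ ∧ f' ξ = f ((n : ℝ) + 2) - f ((n : ℝ) + 1) := by
    intro n
    have hn : (0 : ℝ) ≤ n := by positivity
    obtain ⟨ξ, hξ, h⟩ := exists_hasDerivAt_eq_slope f f' (a := (n : ℝ) + 1) (b := (n : ℝ) + 2)
      (by linarith)
      (fun x hx => (hd x (by linarith [hx.1])).continuousAt.continuousWithinAt)
      (fun x hx => hd x (by linarith [hx.1]))
    refine ⟨ξ, hξ.1.le, ?_⟩
    rw [h]; norm_num
  choose ξ h1 h2 using hex
  have hξ : Tendsto ξ atTop atTop := by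
    apply tendsto_atTop_mono (f := fun n : ℕ => (n : ℝ)) _ tendsto_natCast_atTop_atTop
    intro n; linarith [h1 n]
  have hA : Tendsto (fun n => f' (ξ n)) atTop (𝓝 l') := hf'.comp hξ
  have hn : Tendsto (fun n : ℕ => (n : ℝ)) atTop atTop := tendsto_natCast_atTop_atTop
  have hB : Tendsto (fun n : ℕ => f ((n : ℝ) + 2) - f ((n : ℝ) + 1)) atTop (𝓝 (l - l)) :=
    (hf.comp (tendsto_atTop_add_const_right _ _ hn)).sub
      (hf.comp (tendsto_atTop_add_const_right _ _ hn))
  rw [sub_self] at hB
  simp_rw [h2] at hA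
  exact tendsto_nhds_unique hA hB

theorem field_two (κ : ℝ) (θ : Fin 2 → ℝ) :
    field 2 (fun _ => 1) κ θ = fun i => 1 - κ * RR θ * sin (θ i) := by
  funext i
  simp only [field, RR, Fin.sum_univ_two]
  push_cast
  ring

/-- a solution on `[0,∞)` is the restriction of the global trajectory -/
theorem IsSol.eq_traj {κ : ℝ} (hκ0 : 0 ≤ κ) (hκ1 : κ ≤ 1) {Θ0 : Fin 2 → ℝ}
    {γ x : ℝ → Fin 2 → ℝ} (hγ : IsSol 2 (fun _ => 1) κ Θ0 γ) (hx : Traj κ x) (hx0 : x 0 = Θ0)
    {t : ℝ} (ht : 0 ≤ t) : γ t = x t := by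
  -- Lipschitz field on the first factor
  have hlip : LipschitzWith 5 (fun θ : Fin 2 → ℝ => (fun i => 1 - κ * RR θ * sin (θ i))) := by
    apply LipschitzWith.of_dist_le_mul
    intro θ θ'
    have h := V_lip.dist_le_mul (θ, κ) (θ', κ)
    simp only [V, cl_of_mem hκ0 hκ1, Prod.dist_eq, dist_self] at h
    simpa using h
  -- right derivative at all points of [0, t)
  have hder : ∀ s ∈ Ico (0 : ℝ) t, HasDerivWithinAt γ
      ((fun θ : Fin 2 → ℝ => (fun i => 1 - κ * RR θ * sin (θ i))) (γ s)) (Ici s) s := by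
    intro s hs
    rcases eq_or_lt_of_le hs.1 with h | h
    · subst h
      apply hasDerivWithinAt_Ici_of_tendsto_deriv (s := Ioi 0)
      · intro u hu
        exact (hγ.deriv u hu).differentiableAt.differentiableWithinAt
      · exact (hγ.cont 0 (by simp)).mono (Ioi_subset_Ici_self)
      · exact self_mem_nhdsWithin
      · have h1 : Tendsto (fun u => field 2 (fun _ => 1) κ (γ u)) (𝓝[>] 0)
            (𝓝 (field 2 (fun _ => 1) κ (γ 0))) := by
          have hc : Continuous (field 2 (fun _ => 1) κ) := by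
            unfold field; fun_prop
          exact (hc.tendsto _).comp ((hγ.cont 0 (by simp)).mono (Ioi_subset_Ici_self))
        rw [field_two] at h1
        refine h1.congr' ?_
        filter_upwards [self_mem_nhdsWithin] with u hu
        exact ((hγ.deriv u hu).deriv).symm
    · have := (hγ.deriv s h).hasDerivWithinAt (s := Ici s)
      rwa [field_two] at this
  have huniq := ODE_solution_unique (v := fun _ => fun θ : Fin 2 → ℝ =>
      (fun i => 1 - κ * RR θ * sin (θ i))) (K := 5) (a := 0) (b := t) (f := γ) (g := x)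
    (fun _ => hlip) (hγ.cont.mono Icc_subset_Ici_self) hder
    (hx.continuous.continuousOn) (fun s _ => (hx s).hasDerivWithinAt) (by rw [hγ.init, hx0])
  exact huniq ⟨ht, le_rfl⟩

/-- No convergent solution stays in the strip away from both trapping regions. -/
theorem not_converges {κ : ℝ} (hκ0 : 0 < κ) (hκ1 : κ < 1) {Θ0 : Fin 2 → ℝ}
    {x : ℝ → Fin 2 → ℝ} (hx : Traj κ x) (hx0 : x 0 = Θ0) (hs : ∀ t, x t ∈ strip)
    (hT : ∀ t, x t ∉ T0) (hT' : ∀ t, tau (x t) ∉ T0) :
    ¬ Converges 2 (fun _ => 1) κ Θ0 := by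
  rintro ⟨γ, hγ, hlim⟩
  choose l hl using hlim
  have hlim : Tendsto x atTop (𝓝 l) := by
    rw [tendsto_pi_nhds]
    intro i
    refine (hl i).congr' ?_
    filter_upwards [eventually_ge_atTop 0] with t ht
    rw [hγ.eq_traj hκ0.le hκ1.le hx hx0 ht]
  -- the limit is an equilibrium
  have hR : Continuous RR := by unfold RR; fun_prop
  have heq : ∀ i, 1 - κ * RR l * sin (l i) = 0 := by
    intro i
    apply limit_deriv_zero (f := fun t => x t i) (f' := fun t => 1 - κ * RR (x t) * sin (x t i))
      (fun t _ => hx.coord i t) ((continuous_apply i).continuousAt.tendsto.comp hlim)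
    have hc : Continuous (fun θ : Fin 2 → ℝ => 1 - κ * RR θ * sin (θ i)) := by fun_prop
    exact (hc.tendsto _).comp hlim
  -- bounds on the cosine of the half difference
  have hcos : Tendsto (fun t => cos (sD (x t))) atTop (𝓝 (cos (sD l))) :=
    ((continuous_cos.comp continuous_sD).tendsto _).comp hlim
  have hle : cos (sD l) ≤ c1 :=
    le_of_tendsto hcos (Eventually.of_forall fun t => cos_le_of_notMem_T0 (hs t) (hT t))
  have hge : -c1 ≤ cos (sD l) := by
    refine ge_of_tendsto hcos (Eventually.of_forall fun t => ?_)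
    have := cos_le_of_notMem_T0 (tau_mem_strip (hs t)) (hT' t)
    rw [sD_tau, cos_pi_sub] at this
    linarith
  have hc1 := c1_lt_one
  have hsin : sin (sD l) ≠ 0 := by
    intro h
    have := sin_sq_add_cos_sq (sD l)
    rw [h] at this
    nlinarith
  have h0 := heq 0
  have h1 := heq 1
  rw [sin_zero_eq] at h0
  rw [sin_one_eq] at h1
  have hprod : κ * RR l * (2 * cos (mD l) * sin (sD l)) = 0 := by linear_combination h0 - h1
  have hR0 : RR l ≠ 0 := by
    intro h
    rw [h] at h0
    simp at h0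
  have hcm : cos (mD l) = 0 := by
    rcases mul_eq_zero.1 hprod with h | h
    · rcases mul_eq_zero.1 h with h | h
      · exact absurd h hκ0.ne'
      · exact absurd h hR0
    · rcases mul_eq_zero.1 h with h | h
      · linarith
      · exact absurd h hsin
  rw [RR_eq, hcm] at h0
  have hb : |sin (mD l) * cos (sD l)| ≤ 1 := by
    rw [abs_mul]
    exact mul_le_one₀ (abs_sin_le_one _) (abs_nonneg _) (abs_cos_le_one _)
  have hb' := (abs_le.1 hb).2
  have : κ * (sin (mD l) * cos (sD l)) ≤ κ * 1 := mul_le_mul_of_nonneg_left hb' hκ0.le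
  nlinarith

end Pool.Agent.MP_4423d6_an
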