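import Pool.Agent.MP_4423d6_an.Field2
import Pool.Agent.MP_4423d6_an.Ineq

/-!
Trajectories of the two-oscillator system, half difference and mean phase, the strip, the
Lyapunov-type function.
-/

open Set Metric Filter Topology Real
open scoped NNReal

namespace Pool.Agent.MP_4423d6_an

/-- half difference -/
noncomputable def sD (θ : Fin 2 → ℝ) : ℝ := (θ 1 - θ 0) / 2
/-- mean phase -/
noncomputable def mD (θ : Fin 2 → ℝ) : ℝ := (θ 0 + θ 1) / 2

theorem continuous_sD : Continuous sD := by unfold sD; fun_prop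
theorem continuous_mD : Continuous mD := by unfold mD; fun_prop

/-- global (two-sided) trajectory for the coupling `κ` -/
def Traj (κ : ℝ) (θ : ℝ → Fin 2 → ℝ) : Prop :=
  ∀ t, HasDerivAt θ (fun i => 1 - κ * RR (θ t) * sin (θ t i)) t

theorem RR_eq (θ : Fin 2 → ℝ) : RR θ = 1 + cos (sD θ) * cos (mD θ) := by
  have h0 : cos (θ 0) = cos (mD θ - sD θ) := by congr 1; unfold mD sD; ring
  have h1 : cos (θ 1) = cos (mD θ + sD θ) := by congr 1; unfold mD sD; ring
  unfold RR
  rw [h0, h1, cos_sub, cos_add]; ring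

theorem sin_zero_eq (θ : Fin 2 → ℝ) : sin (θ 0) = sin (mD θ) * cos (sD θ) - cos (mD θ) * sin (sD θ) := by
  have h0 : θ 0 = mD θ - sD θ := by unfold mD sD; ring
  rw [← sin_sub, ← h0]

theorem sin_one_eq (θ : Fin 2 → ℝ) : sin (θ 1) = sin (mD θ) * cos (sD θ) + cos (mD θ) * sin (sD θ) := by
  have h1 : θ 1 = mD θ + sD θ := by unfold mD sD; ring
  rw [← sin_add, ← h1]

theorem Traj.coord {κ : ℝ} {θ : ℝ → Fin 2 → ℝ} (h : Traj κ θ) (i : Fin 2) (t : ℝ) :
    HasDerivAt (fun t => θ t i) (1 - κ * RR (θ t) * sin (θ t i)) t :=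
  (hasDerivAt_pi.1 (h t)) i

theorem Traj.hasDerivAt_sD {κ : ℝ} {θ : ℝ → Fin 2 → ℝ} (h : Traj κ θ) (t : ℝ) :
    HasDerivAt (fun t => sD (θ t)) (-(κ * RR (θ t) * cos (mD (θ t))) * sin (sD (θ t))) t := by
  have := ((h.coord 1 t).sub (h.coord 0 t)).div_const 2
  refine this.congr_deriv ?_
  rw [sin_zero_eq, sin_one_eq]; ring

theorem Traj.hasDerivAt_mD {κ : ℝ} {θ : ℝ → Fin 2 → ℝ} (h : Traj κ θ) (t : ℝ) :
    HasDerivAt (fun t => mD (θ t)) (1 - κ * RR (θ t) * (cos (sD (θ t)) * sin (mD (θ t)))) t := by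
  have := ((h.coord 0 t).add (h.coord 1 t)).div_const 2
  refine this.congr_deriv ?_
  rw [sin_zero_eq, sin_one_eq]; ring

theorem Traj.continuous {κ : ℝ} {θ : ℝ → Fin 2 → ℝ} (h : Traj κ θ) : Continuous θ :=
  continuous_iff_continuousAt.2 fun t => (h t).continuousAt

/-- the open strip `0 < θ₁ - θ₀ < 2π` -/
def strip : Set (Fin 2 → ℝ) := {θ | 0 < sD θ ∧ sD θ < π}

theorem isOpen_strip : IsOpen strip :=
  (isOpen_lt continuous_const continuous_sD).inter (isOpen_lt continuous_sD continuous_const)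

theorem convex_strip : Convex ℝ strip := by
  intro x hx y hy a b ha hb hab
  have e : sD (a • x + b • y) = a * sD x + b * sD y := by
    simp only [sD, Pi.add_apply, Pi.smul_apply, smul_eq_mul]; ring
  have hx1 := hx.1; have hx2 := hx.2; have hy1 := hy.1; have hy2 := hy.2
  refine ⟨?_, ?_⟩
  · rw [e]
    rcases eq_or_lt_of_le ha with h | h
    · have : b = 1 := by linarith
      subst this; rw [← h]; linarith
    · have := mul_pos h hx1
      have := mul_nonneg hb hy1.le
      linarith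
  · rw [e]
    have hb' : b = 1 - a := by linarith
    subst hb'
    rcases eq_or_lt_of_le ha with h | h
    · rw [← h]; linarith
    · have := mul_lt_mul_of_pos_left hx2 h
      have := mul_le_mul_of_nonneg_left hy2.le hb
      nlinarith

/-- A trajectory that meets a level `sin (sD) = 0`, stays there. -/
theorem Traj.const_of_mem {κ : ℝ} (hκ0 : 0 ≤ κ) (hκ1 : κ ≤ 1) {θ : ℝ → Fin 2 → ℝ} (h : Traj κ θ)
    {t₀ r : ℝ} (hr : sin r = 0) (h0 : sD (θ t₀) = r) (t : ℝ) : sD (θ t) = r := by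
  have key := ODE_solution_unique_univ (K := 2)
    (v := fun t s => -(κ * RR (θ t) * cos (mD (θ t))) * sin s) (s := fun _ => univ)
    (f := fun t => sD (θ t)) (g := fun _ => r) (t₀ := t₀) ?_ ?_ ?_ h0
  · exact congrFun key t
  · intro t
    apply LipschitzWith.lipschitzOnWith
    apply LipschitzWith.of_dist_le_mul
    intro x y
    rw [Real.dist_eq, ← mul_sub, abs_mul, Real.dist_eq]
    apply mul_le_mul _ (abs_sin_sub_sin_le x y) (abs_nonneg _) (by positivity)
    rw [abs_neg, abs_mul, abs_mul, abs_of_nonneg hκ0, abs_of_nonneg (RR_nonneg _)]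
    push_cast
    calc κ * RR (θ t) * |cos (mD (θ t))| ≤ 1 * 2 * 1 := by
          apply mul_le_mul _ (abs_cos_le_one _) (abs_nonneg _) (by norm_num)
          exact mul_le_mul hκ1 (RR_le _) (RR_nonneg _) (by norm_num)
      _ = 2 := by norm_num
  · intro t; exact ⟨h.hasDerivAt_sD t, trivial⟩
  · intro t
    refine ⟨?_, trivial⟩
    have : HasDerivAt (fun _ : ℝ => r) 0 t := hasDerivAt_const t r
    simpa [hr] using this

theorem Traj.mem_strip {κ : ℝ} (hκ0 : 0 ≤ κ) (hκ1 : κ ≤ 1) {θ : ℝ → Fin 2 → ℝ} (h : Traj κ θ)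
    {t₀ : ℝ} (h0 : θ t₀ ∈ strip) (t : ℝ) : θ t ∈ strip := by
  have hcont : Continuous (fun t => sD (θ t)) := continuous_sD.comp h.continuous
  by_contra hcon
  have h0' : 0 < sD (θ t₀) ∧ sD (θ t₀) < π := h0
  have hcon' : ¬ (0 < sD (θ t) ∧ sD (θ t) < π) := hcon
  rw [not_and_or, not_lt, not_lt] at hcon'
  rcases hcon' with hc | hc
  · obtain ⟨u, hu⟩ : ∃ u, sD (θ u) = 0 := by
      have := isPreconnected_univ.intermediate_value (mem_univ t) (mem_univ t₀)
        (f := fun t => sD (θ t)) hcont.continuousOn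
      obtain ⟨u, _, hu⟩ := this ⟨hc, h0'.1.le⟩
      exact ⟨u, hu⟩
    have := h.const_of_mem hκ0 hκ1 sin_zero hu t₀
    linarith
  · obtain ⟨u, hu⟩ : ∃ u, sD (θ u) = π := by
      have := isPreconnected_univ.intermediate_value (mem_univ t₀) (mem_univ t)
        (f := fun t => sD (θ t)) hcont.continuousOn
      obtain ⟨u, _, hu⟩ := this ⟨h0'.2.le, hc⟩
      exact ⟨u, hu⟩
    have := h.const_of_mem hκ0 hκ1 sin_pi hu t₀
    linarith

/-- bounded correction -/
noncomputable def gg (m : ℝ) : ℝ := -(11/20) * sin m - 9/40 * sin (2 * m)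

theorem abs_gg_le (m : ℝ) : |gg m| ≤ 1 := by
  have h1 := abs_sin_le_one m
  have h2 := abs_sin_le_one (2 * m)
  rw [abs_le] at *
  unfold gg
  constructor <;> linarith [h1.1, h1.2, h2.1, h2.2]

/-- logarithmic coordinate -/
noncomputable def LL (θ : Fin 2 → ℝ) : ℝ := log (1 + cos (sD θ)) - log (1 - cos (sD θ))

/-- Lyapunov-type function -/
noncomputable def WW (θ : Fin 2 → ℝ) : ℝ := LL θ + 2 * gg (mD θ)

theorem cos_lt_one_of_strip {θ : Fin 2 → ℝ} (h : θ ∈ strip) : cos (sD θ) < 1 := by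
  have h1 := h.1; have h2 := h.2
  have := sin_pos_of_pos_of_lt_pi h1 h2
  nlinarith [sin_sq_add_cos_sq (sD θ), cos_le_one (sD θ)]

theorem neg_one_lt_cos_of_strip {θ : Fin 2 → ℝ} (h : θ ∈ strip) : -1 < cos (sD θ) := by
  have h1 := h.1; have h2 := h.2
  have := sin_pos_of_pos_of_lt_pi h1 h2
  nlinarith [sin_sq_add_cos_sq (sD θ), neg_one_le_cos (sD θ)]

theorem continuousOn_LL : ContinuousOn LL strip := by
  unfold LL
  apply ContinuousOn.sub
  · apply ContinuousOn.log
    · exact (continuous_const.add (continuous_cos.comp continuous_sD)).continuousOn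
    · intro θ hθ
      have := neg_one_lt_cos_of_strip hθ
      linarith
  · apply ContinuousOn.log
    · exact (continuous_const.sub (continuous_cos.comp continuous_sD)).continuousOn
    · intro θ hθ
      have := cos_lt_one_of_strip hθ
      linarith

theorem continuousOn_WW : ContinuousOn WW strip := by
  unfold WW
  apply continuousOn_LL.add
  apply Continuous.continuousOn
  unfold gg
  have := continuous_mD
  fun_prop

theorem Traj.hasDerivAt_WW {κ : ℝ} {θ : ℝ → Fin 2 → ℝ} (h : Traj κ θ) (t : ℝ)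
    (hs : θ t ∈ strip) :
    HasDerivAt (fun t => WW (θ t))
      (2 * (κ * (1 + cos (sD (θ t)) * cos (mD (θ t))) * cos (mD (θ t))
        + (9/20 - 11/20 * cos (mD (θ t)) - 9/10 * (cos (mD (θ t)))^2)
          * (1 - κ * (1 + cos (sD (θ t)) * cos (mD (θ t))) *
            (cos (sD (θ t)) * sin (mD (θ t)))))) t := by
  have h1 := cos_lt_one_of_strip hs
  have h2 := neg_one_lt_cos_of_strip hs
  have hsin : 0 < sin (sD (θ t)) := sin_pos_of_pos_of_lt_pi hs.1 hs.2
  have hc := (h.hasDerivAt_sD t).cos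
  have ha := (hc.const_add 1).log (by linarith)
  have hb := (hc.const_sub 1).log (by linarith)
  have hm := h.hasDerivAt_mD t
  have hm1 := (hm.sin).const_mul (-(11/20 : ℝ))
  have hm2 := ((hm.const_mul 2).sin).const_mul (9/40 : ℝ)
  have hg := ((hm1.sub hm2).const_mul 2)
  have hW := (ha.sub hb).add hg
  refine hW.congr_deriv ?_
  rw [RR_eq, cos_two_mul]
  set c := cos (sD (θ t)) with hcdef
  set s := sin (sD (θ t)) with hsdef
  set x := cos (mD (θ t)) with hx
  set y := sin (mD (θ t)) with hy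
  have hs2 : s ^ 2 = (1 - c) * (1 + c) := by
    have := sin_sq_add_cos_sq (sD (θ t))
    rw [← hcdef, ← hsdef] at this
    linarith [this]
  have hc1 : (1 + c) ≠ 0 := by linarith
  have hc2 : (1 - c) ≠ 0 := by linarith
  have e1 : -s * (-(κ * (1 + c * x) * x) * s) / (1 + c) = κ * (1 + c * x) * x * (1 - c) := by
    rw [div_eq_iff hc1]
    linear_combination (κ * (1 + c * x) * x) * hs2
  have e2 : -(-s * (-(κ * (1 + c * x) * x) * s)) / (1 - c) = -(κ * (1 + c * x) * x * (1 + c)) := by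
    rw [div_eq_iff hc2]
    linear_combination (-(κ * (1 + c * x) * x)) * hs2
  rw [e1, e2]
  ring

end Pool.Agent.MP_4423d6_an
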